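import Pool.Agent.Helper58.DG.Goals

/-!
# Project DG (MP_06d934_gt): packet K_SGN (the sign of the Kähler-Einstein metrics)
-/

set_option autoImplicit false

namespace Pool.Agent.Helper93.DG

open Pool.Agent.Helper83.EIN Pool.Agent.Helper58.DG Finset

/-- The Jacobian determinant from the directional derivatives. -/
theorem jac_of_lines {m : ℕ} {f : (Fin m → ℝ) → Fin m → ℝ} {x : Fin m → ℝ}
    (A : Matrix (Fin m) (Fin m) ℝ) (hf : DifferentiableAt ℝ f x)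
    (h : ∀ v : Fin m → ℝ, ∀ i, deriv (fun s : ℝ ↦ f (x + s • v) i) 0 = (A.mulVec v) i) :
    jac f x = A.det := by
  have key : ∀ v, fderiv ℝ f x v = A.mulVec v := by
    intro v
    have h4 : HasDerivAt (fun s : ℝ ↦ x + s • v) v 0 := by
      have := ((hasDerivAt_id (0 : ℝ)).smul_const v).const_add x
      simpa using this
    have h5 : HasFDerivAt f (fderiv ℝ f x) (x + (0 : ℝ) • v) := by
      rw [zero_smul, add_zero]
      exact hf.hasFDerivAt
    have h6 := h5.comp_hasDerivAt (0 : ℝ) h4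
    rw [hasDerivAt_pi] at h6
    funext i
    have h7 := (h6 i).deriv
    rw [← h v i]
    exact h7.symm
  have h8 : ((fderiv ℝ f x : (Fin m → ℝ) →L[ℝ] (Fin m → ℝ)) : (Fin m → ℝ) →ₗ[ℝ] (Fin m → ℝ)) =
      Matrix.toLin' A := by
    apply LinearMap.ext
    intro v
    rw [Matrix.toLin'_apply]
    exact key v
  unfold jac ContinuousLinearMap.det
  rw [h8, LinearMap.det_toLin']

theorem pa_cd : ContDiff ℝ 1 (Function.uncurry PA) := by
  rw [contDiff_pi]
  intro i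
  fin_cases i <;> simp [PA, Function.uncurry_def] <;> fun_prop

theorem kv_cd : ContDiff ℝ 0 kv := by
  rw [contDiff_pi]
  intro i
  fin_cases i <;> simp [kv] <;> fun_prop

/-- The Jacobian determinant at the standard Kähler-Einstein metric depends continuously on the sizes. -/
theorem g_cont : Continuous fun ν : Fin 4 → ℝ ↦ jac (PA ν) (kv ν) := by
  have h : ContDiff ℝ 0 fun ν : Fin 4 → ℝ ↦ fderiv ℝ (PA ν) (kv ν) :=
    ContDiff.fderiv pa_cd kv_cd (by norm_num)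
  exact ContinuousLinearMap.continuous_det.comp h.continuous

/-- The Jacobian matrix for equal sizes. -/
noncomputable def MQ : Matrix (Fin 6) (Fin 6) ℝ :=
  !![1, 3 / 8, -(3 / 8), 1 / 8, -(1 / 8), 0;
    3 / 8, -(1 / 8), 3 / 8, 1 / 8, 0, -(1 / 8);
    -(1 / 8), 1 / 8, 1 / 4, 0, 1 / 8, -(1 / 8);
    3 / 8, 3 / 8, 0, -(1 / 4), 3 / 8, 3 / 8;
    -(1 / 8), 0, 3 / 8, 1 / 8, -(1 / 8), 3 / 8;
    0, -(1 / 8), -(3 / 8), 1 / 8, 3 / 8, 1]

theorem MQ_det : MQ.det = -27 / 1024 := by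
  unfold MQ
  simp [Matrix.det_succ_row_zero, Fin.sum_univ_succ, Fin.succAbove]
  norm_num

/-- The sizes `1/4`. -/
noncomputable def qq : Fin 4 → ℝ := fun _ ↦ 1 / 4

theorem kv_qq : kv qq = ![1 / 2, 1, 1 / 2, 3 / 2, 1, 1 / 2] := by
  unfold kv qq
  norm_num

theorem jac_qq : jac (PA qq) (kv qq) = -27 / 1024 := by
  rw [← MQ_det, kv_qq]
  have hd : DifferentiableAt ℝ (PA qq) ![1 / 2, 1, 1 / 2, 3 / 2, 1, 1 / 2] := by
    rw [differentiableAt_pi]
    intro i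
    fin_cases i <;> simp [PA] <;> fun_prop
  refine jac_of_lines MQ hd fun v i ↦ ?_
  fin_cases i <;> simp only [PA, qq, Fin.zero_eta, Fin.mk_one, Fin.reduceFinMk, Matrix.cons_val,
      Pi.add_apply, Pi.smul_apply, smul_eq_mul] <;>
    simp (disch := fun_prop) only [deriv_fun_add, deriv_fun_sub, deriv_fun_mul, deriv_fun_pow,
      deriv_const, deriv_id''] <;>
    simp [MQ, Matrix.mulVec, dotProduct, Fin.sum_univ_succ, -mul_eq_mul_right_iff, -mul_eq_mul_left_iff] <;>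
    ring

theorem jac_neg (hK : K_DET) (ν : Fin 4 → ℝ) (hν : ∀ i, 0 < ν i) (hs : ∑ i, ν i = 1) :
    jac (PA ν) (kv ν) < 0 := by
  by_contra hcon
  have hpos : 0 ≤ jac (PA ν) (kv ν) := not_lt.1 hcon
  let G : ℝ → ℝ := fun s ↦ jac (PA (qq + s • (ν - qq))) (kv (qq + s • (ν - qq)))
  have hG : Continuous G := g_cont.comp (by fun_prop)
  have h0 : G 0 = -27 / 1024 := by
    have : G 0 = jac (PA (qq + (0 : ℝ) • (ν - qq))) (kv (qq + (0 : ℝ) • (ν - qq))) := rfl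
    rw [this, zero_smul, add_zero, jac_qq]
  have h1 : G 1 = jac (PA ν) (kv ν) := by
    have : G 1 = jac (PA (qq + (1 : ℝ) • (ν - qq))) (kv (qq + (1 : ℝ) • (ν - qq))) := rfl
    rw [this, one_smul, add_sub_cancel]
  have hmem : (0 : ℝ) ∈ Set.Icc (G 0) (G 1) := by
    rw [h0, h1]
    exact ⟨by norm_num, hpos⟩
  obtain ⟨s, hs01, hs0⟩ := intermediate_value_Icc (zero_le_one : (0 : ℝ) ≤ 1) hG.continuousOn hmem
  refine hK (qq + s • (ν - qq)) ?_ ?_ hs0
  · intro i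
    have h2 : (qq + s • (ν - qq)) i = (1 - s) * (1 / 4) + s * ν i := by
      show (1 / 4 : ℝ) + s * (ν i - 1 / 4) = _
      ring
    rw [h2]
    rcases eq_or_lt_of_le hs01.1 with h3 | h3
    · rw [← h3]
      norm_num
    · have h4 : 0 ≤ (1 - s) * (1 / 4) := by
        have := hs01.2
        linarith
      have h5 : 0 < s * ν i := mul_pos h3 (hν i)
      linarith
  · have h2 : ∀ i, (qq + s • (ν - qq)) i = (1 - s) * (1 / 4) + s * ν i := by
      intro i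
      show (1 / 4 : ℝ) + s * (ν i - 1 / 4) = _
      ring
    rw [Finset.sum_congr rfl fun i _ ↦ h2 i, Finset.sum_add_distrib, ← Finset.mul_sum, ← Finset.mul_sum, hs]
    simp

theorem Ht_perm (ν : Fin 4 → ℝ) (σ : Equiv.Perm (Fin 4)) (i : Fin 4) :
    Ht ν σ i = Ht (fun j ↦ ν (σ.symm j)) 1 (σ i) := by
  unfold Ht
  show ν i + 2 * ∑ k with σ k < σ i, ν k = ν (σ.symm (σ i)) +
    2 * ∑ k with (1 : Equiv.Perm (Fin 4)) k < (1 : Equiv.Perm (Fin 4)) (σ i), ν (σ.symm k)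
  rw [Equiv.symm_apply_apply, Finset.sum_filter, Finset.sum_filter]
  congr 2
  rw [← Equiv.sum_comp σ fun k ↦ if (1 : Equiv.Perm (Fin 4)) k < (1 : Equiv.Perm (Fin 4)) (σ i) then
    ν (σ.symm k) else 0]
  refine Finset.sum_congr rfl fun k _ ↦ ?_
  rw [Equiv.symm_apply_apply, Equiv.Perm.one_apply, Equiv.Perm.one_apply]

theorem KE_perm (ν : Fin 4 → ℝ) (σ : Equiv.Perm (Fin 4)) (i j : Fin 4) :
    KE ν σ i j = KE (fun j ↦ ν (σ.symm j)) 1 (σ i) (σ j) := by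
  unfold KE
  rw [Ht_perm ν σ i, Ht_perm ν σ j]

theorem vec_KE (ν : Fin 4 → ℝ) (hν : ∀ i, 0 < ν i) : vec (KE ν 1) = kv ν := by
  unfold vec kv
  rw [KE_val hν 1 (by decide : (0 : Fin 4) ≠ 1), KE_val hν 1 (by decide : (0 : Fin 4) ≠ 2),
    KE_val hν 1 (by decide : (1 : Fin 4) ≠ 2), KE_val hν 1 (by decide : (0 : Fin 4) ≠ 3),
    KE_val hν 1 (by decide : (1 : Fin 4) ≠ 3), KE_val hν 1 (by decide : (2 : Fin 4) ≠ 3)]
  simp only [Finset.sum_filter, Fin.sum_univ_four, Equiv.Perm.one_apply]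
  funext i
  fin_cases i <;> simp <;> ring

/-- **K_SGN**. -/
theorem k_sgn (h1 : K_EQV) (h2 : K_DET) : K_SGN := by
  intro ν hν hs σ
  have hν' : ∀ i, 0 < (fun j ↦ ν (σ.symm j)) i := fun i ↦ hν _
  have hs' : ∑ i, (fun j ↦ ν (σ.symm j)) i = 1 := by
    rw [← hs]
    exact Equiv.sum_comp σ.symm ν
  have h3 := h1 (fun j ↦ ν (σ.symm j)) (KE (fun j ↦ ν (σ.symm j)) 1)
    (fun i j ↦ (KE_isMetric hν' 1).symm i j) σ
  have h4 : (fun i ↦ (fun j ↦ ν (σ.symm j)) (σ i)) = ν := by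
    funext i
    show ν (σ.symm (σ i)) = ν i
    rw [Equiv.symm_apply_apply]
  have h5 : (fun i j ↦ KE (fun j ↦ ν (σ.symm j)) 1 (σ i) (σ j)) = KE ν σ := by
    funext i j
    exact (KE_perm ν σ i j).symm
  rw [h4, h5, vec_KE _ hν'] at h3
  have h6 := jac_neg h2 _ hν' hs'
  rw [h3]
  unfold sg
  rw [sign_neg h6]
  rfl

end Pool.Agent.Helper93.DG
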